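import Pool.Agent.Helper10.EN.S13
import Pool.Agent.Helper10.SQ.Tail
import Pool.Agent.Helper10.SQ.Level

/-! Palindromes with at most three prime factors in residue classes: definitions. -/

set_option autoImplicit false

namespace Pool.Agent.Helper78.TR

open Finset Filter Pool.Agent.Helper10 Pool.Agent.Helper10.P5 Pool.Agent.Helper10.P4
  Pool.Agent.Helper10.P3 Pool.Agent.Helper10.SQ Pool.Agent.Helper10.EN

/-- the digit vectors of the palindromes coprime to ten in a residue class -/
noncomputable def EC (n m a : ℕ) : Finset (ℕ × ℕ × (Fin (n - 1) → ℕ)) :=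
  (EP n).filter (fun e => FPal n e ≡ a [MOD m])

/-- the part of `t` composed of the primes dividing `m` -/
def mp (m t : ℕ) : ℕ := ∏ p ∈ m.primeFactors, p ^ t.factorization p

/-- the members of the auxiliary sifting problem -/
noncomputable def EA (n m a T : ℕ) : Finset ((ℕ × ℕ × (Fin (n - 1) → ℕ)) × ℕ) :=
  EC n m a ×ˢ Icc 1 T

/-- their values -/
def FA (n m : ℕ) (x : (ℕ × ℕ × (Fin (n - 1) → ℕ)) × ℕ) : ℕ := FPal n x.1 * mp m x.2

/-- their number -/
noncomputable def XA (n m T : ℕ) : ℝ := 4 * 10 ^ n / (m : ℝ) * (T : ℝ)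

/-- their remainders -/
noncomputable def rA (n m a T q : ℕ) : ℝ :=
  |(((EA n m a T).filter (fun x => q ∣ FA n m x)).card : ℝ) - XA n m T / q|

/-- the weight -/
noncomputable def wA (n : ℕ) (lam : ℝ) (e : ℕ × ℕ × (Fin (n - 1) → ℕ)) : ℝ :=
  1 - 8645 / 10000 * ∑ p ∈ (PC ((1000 : ℝ) / 5216 * lam) (5137 / 5216 * lam)).filter
    (fun p => p ∣ FPal n e), (1 - Real.log p / (5137 / 5216 * lam))

open Classical in
/-- the palindromes we count -/
noncomputable def threeC (n m a : ℕ) : Finset ℕ :=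
  (Pal n).filter (fun N => N ≡ a [MOD m] ∧ Squarefree N ∧ N.primeFactorsList.length ≤ 3 ∧
      ∀ p : ℕ, p.Prime → p ∣ N → N < p ^ 15)

end Pool.Agent.Helper78.TR
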