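import Pool.Agent.Helper78.TR.Defs
import Pool.Agent.Helper36.PX.BndE

/-! TR-G: the assembly. -/

set_option autoImplicit false

namespace Pool.Agent.Helper78.TR

open Finset Filter Pool.Agent.Helper10 Pool.Agent.Helper10.P5 Pool.Agent.Helper10.P4
  Pool.Agent.Helper10.P3 Pool.Agent.Helper10.SQ Pool.Agent.Helper10.EN

/-- powers are smaller than `exp (κ √n)` -/
lemma growthG (C : ℝ) (A : ℕ) (κ : ℝ) (hκ : 0 < κ) : ∃ n0 : ℕ, ∀ n : ℕ, n0 ≤ n →
    C * (n : ℝ) ^ A ≤ Real.exp (κ * √(n : ℝ)) := by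
  have h1 : Tendsto (fun n : ℕ => κ * √(n : ℝ)) atTop atTop :=
    (Real.tendsto_sqrt_atTop.comp tendsto_natCast_atTop_atTop).const_mul_atTop hκ
  have h2 := (Real.tendsto_pow_mul_exp_neg_atTop_nhds_zero (2 * A)).comp h1
  have h3 := h2.eventually (gt_mem_nhds (show (0 : ℝ) < 1 / (|C| / κ ^ (2 * A) + 1) by positivity))
  obtain ⟨n0, hn0⟩ := Filter.eventually_atTop.1 h3
  refine ⟨n0, fun n hn => ?_⟩
  have h4 := hn0 n hn
  simp only [Function.comp_apply] at h4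
  obtain ⟨y, hy⟩ : ∃ y : ℝ, y = κ * √(n : ℝ) := ⟨_, rfl⟩
  rw [← hy] at h4 ⊢
  have hy0 : 0 ≤ y := by rw [hy]; positivity
  have h5 : (n : ℝ) ^ A = y ^ (2 * A) / κ ^ (2 * A) := by
    rw [hy, mul_pow, pow_mul (√(n : ℝ)) 2 A, Real.sq_sqrt (Nat.cast_nonneg n)]
    field_simp
  have h6 : (0 : ℝ) < |C| / κ ^ (2 * A) + 1 := by positivity
  rw [lt_div_iff₀ h6] at h4
  have h7 : Real.exp (-y) * Real.exp y = 1 := by rw [← Real.exp_add]; simp
  have h8 : 0 < Real.exp y := Real.exp_pos y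
  have h9 : 0 ≤ y ^ (2 * A) := by positivity
  calc C * (n : ℝ) ^ A ≤ |C| * (n : ℝ) ^ A :=
        mul_le_mul_of_nonneg_right (le_abs_self C) (by positivity)
    _ = (|C| / κ ^ (2 * A)) * y ^ (2 * A) := by rw [h5]; ring
    _ ≤ (|C| / κ ^ (2 * A) + 1) * y ^ (2 * A) := by
        apply mul_le_mul_of_nonneg_right _ h9
        linarith
    _ = (y ^ (2 * A) * Real.exp (-y) * (|C| / κ ^ (2 * A) + 1)) * Real.exp y := by
        rw [show (y ^ (2 * A) * Real.exp (-y) * (|C| / κ ^ (2 * A) + 1)) * Real.exp y =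
          (|C| / κ ^ (2 * A) + 1) * y ^ (2 * A) * (Real.exp (-y) * Real.exp y) by ring, h7, mul_one]
    _ ≤ 1 * Real.exp y := mul_le_mul_of_nonneg_right h4.le h8.le
    _ = Real.exp y := one_mul _

theorem finalA_of
    (hD : ∃ (j : ℕ) (Λ : ℝ), ∀ lam : ℝ, Λ ≤ lam → ∀ n m a : ℕ, 1 ≤ n → 0 < m →
      m.Coprime 10 → a.Coprime m → (m : ℝ) ≤ Real.exp ((1000 : ℝ) / 5216 * lam) →
      ((m : ℝ) / m.totient) * (4 * 10 ^ n / m / (2 / 5 * lam) * (19 / 1000) -
        lam ^ j * (hsum j ⌊2 * Real.exp lam⌋₊ * errK j (rP n) (m * ⌊2 * Real.exp lam⌋₊))) ≤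
      ∑ e ∈ sift (EC n m a) (FPal n) (zf ((1000 : ℝ) / 5216 * lam)), wA n lam e)
    (hE : ∃ c : ℝ, 0 < c ∧ ∃ n0 : ℕ, ∀ n : ℕ, n0 ≤ n →
      ((big n (10 ^ (n / 10))).card : ℝ) ≤ 10 ^ n * Real.exp (-(c * √(n : ℝ))))
    (hF : ∀ (n m a : ℕ) (lam : ℝ), 10 ^ 6 ≤ n → 0 < lam →
      (2 * (n : ℝ) + 1) * Real.log 10 ≤ 2.84326 * (5137 / 5216 * lam) →
      ∑ e ∈ sift (EC n m a) (FPal n) (zf ((1000 : ℝ) / 5216 * lam)), wA n lam e ≤
        ((threeC n m a).card : ℝ) + ((big n (10 ^ (n / 10))).card : ℝ)) :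
    ∃ c : ℝ, 0 < c ∧ ∃ n0 : ℕ, ∀ n : ℕ, n0 ≤ n → ∀ m a : ℕ,
      (m : ℝ) ≤ Real.exp (c * √(n : ℝ)) → m.Coprime 10 → a.Coprime m →
      1 / 10 * ((10 : ℝ) ^ n / (n * m.totient)) ≤ ((threeC n m a).card : ℝ) := by
  obtain ⟨j, Λ, hD'⟩ := hD
  obtain ⟨cB, hcB, nB, hE'⟩ := hE
  obtain ⟨cE, hcE, TE, hB'⟩ := Pool.Agent.Helper36.PX.bnd_errE j
  obtain ⟨c, hc⟩ : ∃ c : ℝ, c = min (1 / 100) (min (cB / 2) (cE / 4)) := ⟨_, rfl⟩
  have hc0 : 0 < c := by
    rw [hc]
    exact lt_min (by norm_num) (lt_min (by linarith) (by linarith))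
  have hc1 : c ≤ 1 / 100 := by rw [hc]; exact min_le_left _ _
  have hc2 : c ≤ cB / 2 := by rw [hc]; exact (min_le_right _ _).trans (min_le_left _ _)
  have hc3 : c ≤ cE / 4 := by rw [hc]; exact (min_le_right _ _).trans (min_le_right _ _)
  obtain ⟨n1, hg1⟩ := growthG 1000 1 (cB / 2) (by linarith)
  obtain ⟨n2, hg2⟩ := growthG (4000 * 2 ^ j * 3 ^ (2 ^ j)) (1 + j + 2 ^ j) (cE / 4) (by linarith)
  refine ⟨c, hc0, nB + TE + n1 + n2 + ⌈Λ⌉₊ + 10 ^ 6 + 1, fun n hn m a hm hm10 ha => ?_⟩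
  have hn6 : 10 ^ 6 ≤ n := by omega
  have hn1 : 1 ≤ n := by omega
  have hnR : (10 : ℝ) ^ 6 ≤ n := by exact_mod_cast hn6
  have hn0 : (0 : ℝ) < n := by linarith
  have hm0 : 0 < m := by
    rcases Nat.eq_zero_or_pos m with h | h
    · subst h
      norm_num at hm10
    · exact h
  have hmR : (0 : ℝ) < m := by exact_mod_cast hm0
  have hphi0 : 0 < m.totient := Nat.totient_pos.2 hm0
  have hphiR : (0 : ℝ) < m.totient := by exact_mod_cast hphi0
  have hphim : (m.totient : ℝ) ≤ m := by exact_mod_cast Nat.totient_le m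
  -- the square root
  obtain ⟨x, hx⟩ : ∃ x : ℝ, x = √(n : ℝ) := ⟨_, rfl⟩
  rw [← hx] at hm
  have hx0 : 0 ≤ x := by rw [hx]; exact Real.sqrt_nonneg _
  have hxx : x ^ 2 = n := by rw [hx]; exact Real.sq_sqrt hn0.le
  have hx1000 : 1000 ≤ x := by
    by_contra hcon
    rw [not_le] at hcon
    nlinarith
  have hxn : x ≤ n / 1000 := by
    rw [le_div_iff₀ (by norm_num)]
    nlinarith
  have hcx : c * x ≤ n / 100000 := by
    have : c * x ≤ 1 / 100 * (n / 1000) := mul_le_mul hc1 hxn hx0 (by norm_num)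
    linarith
  have hcx0 : 0 ≤ c * x := by positivity
  -- logarithms
  have hl0 : 0 < Real.log 10 := Real.log_pos (by norm_num)
  have hl2 : 0 < Real.log 2 := Real.log_pos (by norm_num)
  have hl2d := Real.log_two_lt_d9
  have hl2g := Real.log_two_gt_d9
  have hl10a : Real.log 10 ≤ 2.3105 := by
    have h1 : Real.log ((10 : ℝ) ^ 3) ≤ Real.log ((2 : ℝ) ^ 10) := by
      apply Real.log_le_log (by norm_num)
      norm_num
    rw [Real.log_pow, Real.log_pow] at h1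
    push_cast at h1
    linarith
  have hl10b : 3 * Real.log 2 ≤ Real.log 10 := by
    have h1 : Real.log ((2 : ℝ) ^ 3) ≤ Real.log 10 := by
      apply Real.log_le_log (by norm_num)
      norm_num
    rw [Real.log_pow] at h1
    push_cast at h1
    exact h1
  -- the level
  obtain ⟨J, hJ⟩ : ∃ J : ℕ, J = 5 * n / 7 := ⟨_, rfl⟩
  have hJ1 : 7 * J ≤ 5 * n := by rw [hJ]; exact Nat.mul_div_le _ _
  have hJ2 : 5 * n ≤ 7 * J + 6 := by omega
  have hJ1R : 7 * (J : ℝ) ≤ 5 * n := by exact_mod_cast hJ1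
  have hJ2R : 5 * (n : ℝ) ≤ 7 * J + 6 := by exact_mod_cast hJ2
  obtain ⟨s, hs⟩ : ∃ s : ℕ, s = ⌈c * x⌉₊ := ⟨_, rfl⟩
  have hs1 : c * x ≤ s := by rw [hs]; exact Nat.le_ceil _
  have hs2 : (s : ℝ) < c * x + 1 := by rw [hs]; exact Nat.ceil_lt_add_one hcx0
  have hsJ : s ≤ J := by
    have : (s : ℝ) ≤ J := by linarith
    exact_mod_cast this
  have hsJR : ((J - s : ℕ) : ℝ) = (J : ℝ) - s := by rw [Nat.cast_sub hsJ]
  obtain ⟨lam, hlam⟩ : ∃ lam : ℝ, lam = ((J - s : ℕ) : ℝ) * Real.log 10 - Real.log 2 := ⟨_, rfl⟩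
  have hQ : ⌊2 * Real.exp lam⌋₊ = 10 ^ (J - s) := by
    have h : 2 * Real.exp lam = ((10 ^ (J - s) : ℕ) : ℝ) := by
      rw [hlam, Real.exp_sub, Real.exp_log (by norm_num), Real.exp_nat_mul,
        Real.exp_log (by norm_num)]
      push_cast
      ring
    rw [h, Nat.floor_natCast]
  have hlam1 : (5 / 7 * (n : ℝ) - 3 - n / 100000) * Real.log 10 ≤ lam := by
    rw [hlam, hsJR]
    have h4 : (5 / 7 * (n : ℝ) - 3 - n / 100000 + 1) * Real.log 10 ≤ ((J : ℝ) - s) * Real.log 10 :=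
      mul_le_mul_of_nonneg_right (by linarith) hl0.le
    linarith
  have hlam2 : lam ≤ 1.6504 * n := by
    rw [hlam, hsJR]
    have hs0 : (0 : ℝ) ≤ s := Nat.cast_nonneg s
    have h6 : ((J : ℝ) - s) * Real.log 10 ≤ (5 / 7 * n) * 2.3105 :=
      mul_le_mul (by linarith) hl10a hl0.le (by positivity)
    linarith
  have hlam3 : (n : ℝ) ≤ lam := by
    have h1 : (2 : ℝ) ≤ Real.log 10 := by linarith
    have h2 : (0 : ℝ) ≤ 5 / 7 * (n : ℝ) - 3 - n / 100000 := by linarith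
    have h3 := mul_le_mul_of_nonneg_left h1 h2
    linarith
  have hlam0 : 0 < lam := by linarith
  have hcond : (2 * (n : ℝ) + 1) * Real.log 10 ≤ 2.84326 * (5137 / 5216 * lam) := by
    have h5 : (2 * (n : ℝ) + 1) ≤ 2.84326 * (5137 / 5216) * (5 / 7 * (n : ℝ) - 3 - n / 100000) := by
      linarith
    calc (2 * (n : ℝ) + 1) * Real.log 10
        ≤ (2.84326 * (5137 / 5216) * (5 / 7 * (n : ℝ) - 3 - n / 100000)) * Real.log 10 :=
          mul_le_mul_of_nonneg_right h5 hl0.le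
      _ = 2.84326 * (5137 / 5216) * ((5 / 7 * (n : ℝ) - 3 - n / 100000) * Real.log 10) := by ring
      _ ≤ 2.84326 * (5137 / 5216) * lam := mul_le_mul_of_nonneg_left hlam1 (by norm_num)
      _ = _ := by ring
  have hLam : Λ ≤ lam := by
    have h1 : Λ ≤ (⌈Λ⌉₊ : ℝ) := Nat.le_ceil Λ
    have h2 : ((⌈Λ⌉₊ : ℕ) : ℝ) ≤ n := by exact_mod_cast (by omega : ⌈Λ⌉₊ ≤ n)
    linarith
  have hmexp : (m : ℝ) ≤ Real.exp ((1000 : ℝ) / 5216 * lam) := by
    refine hm.trans (Real.exp_le_exp.2 ?_)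
    linarith
  -- the sieve
  have hmain := hD' lam hLam n m a hn1 hm0 hm10 ha hmexp
  have hSumF := hF n m a lam hn6 hlam0 hcond
  have hbig := hE' n (by omega)
  rw [hQ] at hmain
  rw [← hx] at hbig
  -- the remainders
  have hmQ : m * 10 ^ (J - s) ≤ 10 ^ J := by
    have h1 : (m : ℝ) ≤ (10 : ℝ) ^ s := by
      refine hm.trans ?_
      have h2 : (10 : ℝ) ^ s = Real.exp ((s : ℝ) * Real.log 10) := by
        rw [Real.exp_nat_mul, Real.exp_log (by norm_num)]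
      rw [h2]
      apply Real.exp_le_exp.2
      have h3 : (s : ℝ) * 1 ≤ (s : ℝ) * Real.log 10 :=
        mul_le_mul_of_nonneg_left (by linarith) (Nat.cast_nonneg s)
      linarith
    have h2 : m ≤ 10 ^ s := by exact_mod_cast h1
    calc m * 10 ^ (J - s) ≤ 10 ^ s * 10 ^ (J - s) := Nat.mul_le_mul_right _ h2
      _ = 10 ^ J := by rw [← pow_add]; congr 1; omega
  have herr : errK j (rP n) (m * 10 ^ (J - s)) ≤ 40 * (10 ^ (n - 1) * Real.exp (-(cE / 2 * x))) := by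
    rw [errK_pal]
    have h1 := hB' (n - 1) (by omega) 10 (m * 10 ^ (J - s)) J (fun q h => h) hmQ (by omega)
    have h2 : x / 2 ≤ √((n - 1 : ℕ) : ℝ) := by
      apply Real.le_sqrt_of_sq_le
      rw [Nat.cast_sub hn1]
      push_cast
      nlinarith
    have h3 : Real.exp (-(cE * √((n - 1 : ℕ) : ℝ))) ≤ Real.exp (-(cE / 2 * x)) := by
      apply Real.exp_le_exp.2
      have := mul_le_mul_of_nonneg_left h2 hcE.le
      linarith
    have h4 : (0 : ℝ) < 10 ^ (n - 1) := by positivity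
    have h5 := mul_le_mul_of_nonneg_left h3 h4.le
    linarith
  have hhsum : hsum j (10 ^ (J - s)) ≤ (3 * (n : ℝ)) ^ (2 ^ j) := by
    refine (hsum_le j (10 ^ (J - s)) (Nat.one_le_pow _ _ (by norm_num))).trans ?_
    apply pow_le_pow_left₀
    · have := Real.log_natCast_nonneg (10 ^ (J - s))
      linarith
    · have h1 : Real.log ((10 ^ (J - s) : ℕ) : ℝ) = ((J - s : ℕ) : ℝ) * Real.log 10 := by
        push_cast
        rw [Real.log_pow]
      rw [h1]
      have h2 : ((J - s : ℕ) : ℝ) * Real.log 10 ≤ (5 / 7 * n) * 2.3105 := by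
        rw [hsJR]
        have hs0 : (0 : ℝ) ≤ s := Nat.cast_nonneg s
        exact mul_le_mul (by linarith) hl10a hl0.le (by positivity)
      linarith
  have herr0 : 0 ≤ errK j (rP n) (m * 10 ^ (J - s)) := errK_nonneg _ _ (SX_pal n hn1).r0 _
  have hhs0 : 0 ≤ hsum j (10 ^ (J - s)) := hsum_nonneg _ _
  obtain ⟨Y, hY⟩ : ∃ Y : ℝ, Y = 10 ^ n / (n * m.totient) := ⟨_, rfl⟩
  have hY0 : 0 < Y := by rw [hY]; positivity
  have h10 : (10 : ℝ) ^ n = 10 * 10 ^ (n - 1) := by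
    rw [← pow_succ']
    congr 1
    omega
  -- main term
  have t1 : 115 / 1000 * Y ≤ ((m : ℝ) / m.totient) * (4 * 10 ^ n / m / (2 / 5 * lam) * (19 / 1000)) := by
    have e1 : ((m : ℝ) / m.totient) * (4 * 10 ^ n / m / (2 / 5 * lam) * (19 / 1000)) =
        10 ^ n / m.totient * (19 / 100) / lam := by
      field_simp
      ring
    rw [e1, le_div_iff₀ hlam0, hY]
    calc 115 / 1000 * ((10 : ℝ) ^ n / (n * m.totient)) * lam
        ≤ 115 / 1000 * ((10 : ℝ) ^ n / (n * m.totient)) * (1.6504 * n) :=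
          mul_le_mul_of_nonneg_left hlam2 (by positivity)
      _ = 10 ^ n / m.totient * (115 / 1000 * 1.6504) := by field_simp
      _ ≤ 10 ^ n / m.totient * (19 / 100) := by
          apply mul_le_mul_of_nonneg_left _ (by positivity)
          norm_num
  -- error term
  have t2 : ((m : ℝ) / m.totient) * (lam ^ j * (hsum j (10 ^ (J - s)) *
      errK j (rP n) (m * 10 ^ (J - s)))) ≤ 1 / 1000 * Y := by
    have a1 : lam ^ j ≤ (2 * (n : ℝ)) ^ j := pow_le_pow_left₀ hlam0.le (by linarith) j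
    have a2 : lam ^ j * (hsum j (10 ^ (J - s)) * errK j (rP n) (m * 10 ^ (J - s))) ≤
        (2 * (n : ℝ)) ^ j * ((3 * (n : ℝ)) ^ (2 ^ j) *
          (40 * (10 ^ (n - 1) * Real.exp (-(cE / 2 * x))))) :=
      mul_le_mul a1 (mul_le_mul hhsum herr herr0 (by positivity)) (by positivity) (by positivity)
    have a3 := hg2 n (by omega)
    rw [← hx] at a3
    have a4 : (m : ℝ) * Real.exp (-(cE / 2 * x)) ≤ Real.exp (-(cE / 4 * x)) := by
      calc (m : ℝ) * Real.exp (-(cE / 2 * x)) ≤ Real.exp (c * x) * Real.exp (-(cE / 2 * x)) :=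
            mul_le_mul_of_nonneg_right hm (Real.exp_pos _).le
        _ = Real.exp (c * x + -(cE / 2 * x)) := (Real.exp_add _ _).symm
        _ ≤ Real.exp (-(cE / 4 * x)) := by
            apply Real.exp_le_exp.2
            have := mul_le_mul_of_nonneg_right hc3 hx0
            linarith
    have a5 : Real.exp (cE / 4 * x) * Real.exp (-(cE / 4 * x)) = 1 := by
      rw [← Real.exp_add]; simp
    have a6 : 0 < Real.exp (-(cE / 4 * x)) := Real.exp_pos _
    have a7 : (4000 * 2 ^ j * 3 ^ (2 ^ j)) * (n : ℝ) ^ (1 + j + 2 ^ j) * Real.exp (-(cE / 4 * x)) ≤ 1 := by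
      rw [← a5]
      exact mul_le_mul_of_nonneg_right a3 a6.le
    calc ((m : ℝ) / m.totient) * (lam ^ j * (hsum j (10 ^ (J - s)) *
          errK j (rP n) (m * 10 ^ (J - s))))
        ≤ ((m : ℝ) / m.totient) * ((2 * (n : ℝ)) ^ j * ((3 * (n : ℝ)) ^ (2 ^ j) *
          (40 * (10 ^ (n - 1) * Real.exp (-(cE / 2 * x)))))) :=
          mul_le_mul_of_nonneg_left a2 (by positivity)
      _ = (1 / 1000 * Y) * ((4000 * 2 ^ j * 3 ^ (2 ^ j)) * (n : ℝ) ^ (1 + j + 2 ^ j) *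
          ((m : ℝ) * Real.exp (-(cE / 2 * x)))) := by
          rw [hY, h10, mul_pow, mul_pow, pow_add, pow_add, pow_one]
          field_simp
          ring
      _ ≤ (1 / 1000 * Y) * ((4000 * 2 ^ j * 3 ^ (2 ^ j)) * (n : ℝ) ^ (1 + j + 2 ^ j) *
          Real.exp (-(cE / 4 * x))) := by
          apply mul_le_mul_of_nonneg_left _ (by positivity)
          exact mul_le_mul_of_nonneg_left a4 (by positivity)
      _ ≤ (1 / 1000 * Y) * 1 := mul_le_mul_of_nonneg_left a7 (by positivity)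
      _ = _ := mul_one _
  -- squares
  have t3 : ((big n (10 ^ (n / 10))).card : ℝ) ≤ 1 / 1000 * Y := by
    refine hbig.trans ?_
    have b1 := hg1 n (by omega)
    rw [← hx] at b1
    have b2 : (m.totient : ℝ) * Real.exp (-(cB * x)) ≤ Real.exp (-(cB / 2 * x)) := by
      calc (m.totient : ℝ) * Real.exp (-(cB * x)) ≤ Real.exp (c * x) * Real.exp (-(cB * x)) :=
            mul_le_mul_of_nonneg_right (hphim.trans hm) (Real.exp_pos _).le
        _ = Real.exp (c * x + -(cB * x)) := (Real.exp_add _ _).symm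
        _ ≤ Real.exp (-(cB / 2 * x)) := by
            apply Real.exp_le_exp.2
            have := mul_le_mul_of_nonneg_right hc2 hx0
            linarith
    have b3 : Real.exp (cB / 2 * x) * Real.exp (-(cB / 2 * x)) = 1 := by
      rw [← Real.exp_add]; simp
    have b4 : (1000 * (n : ℝ) ^ 1) * Real.exp (-(cB / 2 * x)) ≤ 1 := by
      rw [← b3]
      exact mul_le_mul_of_nonneg_right b1 (Real.exp_pos _).le
    calc (10 : ℝ) ^ n * Real.exp (-(cB * x))
        = (1 / 1000 * Y) * ((1000 * (n : ℝ) ^ 1) * ((m.totient : ℝ) * Real.exp (-(cB * x)))) := by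
          rw [hY, pow_one]
          field_simp
      _ ≤ (1 / 1000 * Y) * ((1000 * (n : ℝ) ^ 1) * Real.exp (-(cB / 2 * x))) := by
          apply mul_le_mul_of_nonneg_left _ (by positivity)
          exact mul_le_mul_of_nonneg_left b2 (by positivity)
      _ ≤ (1 / 1000 * Y) * 1 := mul_le_mul_of_nonneg_left b4 (by positivity)
      _ = _ := mul_one _
  rw [mul_sub] at hmain
  rw [← hY]
  linarith

end Pool.Agent.Helper78.TR
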