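import Pool.Agent.Helper78.TR.GOf
import Pool.Agent.Helper8.TR.ErrA
import Pool.Agent.Helper10.TR.F
import Pool.Agent.Helper12.TR.A
import Pool.Agent.Helper44.SE.Big
import Pool.Agent.Helper44.TR.D
import Pool.Agent.Helper98.TR.B

/-! Palindromes with at most three prime factors in residue classes. -/

set_option autoImplicit false

namespace Pool.Agent.Helper78.TR

open Finset Filter Pool.Agent.Helper10 Pool.Agent.Helper10.P5 Pool.Agent.Helper10.P4
  Pool.Agent.Helper10.P3 Pool.Agent.Helper10.SQ Pool.Agent.Helper10.EN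

theorem finalA : ∃ c : ℝ, 0 < c ∧ ∃ n0 : ℕ, ∀ n : ℕ, n0 ≤ n → ∀ m a : ℕ,
    (m : ℝ) ≤ Real.exp (c * √(n : ℝ)) → m.Coprime 10 → a.Coprime m →
    1 / 10 * ((10 : ℝ) ^ n / (n * m.totient)) ≤ ((threeC n m a).card : ℝ) :=
  finalA_of
    (Pool.Agent.Helper44.TR.sieveA_of Pool.Agent.Helper98.TR.mp_one_iff
      Pool.Agent.Helper98.TR.count_coprime
      (errA_of class_EC Pool.Agent.Helper98.TR.mp_spec
        Pool.Agent.Helper98.TR.dvd_iff Pool.Agent.Helper98.TR.count_dvd))
    Pool.Agent.Helper44.SE.big_le sum_wA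

end Pool.Agent.Helper78.TR
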